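import Pool.Agent.Helper98.Sim.Main

open scoped Classical BigOperators
open Finset

namespace Pool.Agent.Helper73.Sim

open Pool.Agent.Helper98.Sim

noncomputable section

/-- kites over the pair `e` with apexes in the same cell -/
def KK {J : ℕ} (L M : ℝ) (P : Finset V3) (f : Fin J → MvPolynomial (Fin 3) ℝ) (e : V3 × V3) :
    Finset (V3 × V3) :=
  (Ss P f).filter (fun z => (e.1 ∈ bisSet P z.1 z.2 ∧ e.2 ∈ bisSet P z.1 z.2 ∧ e.1 ≠ e.2) ∧
    Tri L M e.1 e.2 z.1)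

theorem sq_card_Xs_le {J : ℕ} (L M : ℝ) (hG : Good L M) (P : Finset V3)
    (f : Fin J → MvPolynomial (Fin 3) ℝ) (e : V3 × V3) (he : e ∈ P.offDiag) (A : ℕ)
    (hA : ((Xs L M P f e).image (sgnp f)).card ≤ A) (hK : Kite_stmt) :
    (Xs L M P f e).card ^ 2 ≤ A * ((Xs L M P f e).card + (KK L M P f e).card) := by
  obtain ⟨kA, -⟩ := hK L M hG
  refine (card_sq_le_image _ (sgnp f) A hA).trans ?_
  apply Nat.mul_le_mul_left
  apply Nat.add_le_add_left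
  apply Finset.card_le_card
  intro z hz
  simp only [mem_filter, mem_offDiag, Xs] at hz
  obtain ⟨⟨⟨h1P, h1T, h1Z⟩, ⟨h2P, h2T, h2Z⟩, hne⟩, hs⟩ := hz
  obtain ⟨b1, b2⟩ := kA e.1 e.2 z.1 z.2 h1T h2T
  rw [mem_offDiag] at he
  simp only [KK, Ss, bisSet, mem_filter, mem_offDiag]
  exact ⟨⟨⟨h1P, h2P, hne⟩, h1Z, h2Z, hs⟩, ⟨⟨he.1, b1⟩, ⟨he.2.1, b2⟩, he.2.2⟩, h1T⟩

theorem sum_KK {J : ℕ} (L M : ℝ) (hG : Good L M) (P : Finset V3)
    (f : Fin J → MvPolynomial (Fin 3) ℝ) (hK : Kite_stmt) (m : ℕ)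
    (hm : ∀ r ∈ P, ∀ s ∈ P, r ≠ s → (bisSet P r s).card ≤ m) :
    ∑ e ∈ P.offDiag, (KK L M P f e).card ≤ 3 * m * (Ss P f).card := by
  obtain ⟨kA, kB, -⟩ := hK L M hG
  unfold KK
  refine le_trans (le_of_eq ((card_sigma_swap P.offDiag (Ss P f) (fun e z =>
    (e.1 ∈ bisSet P z.1 z.2 ∧ e.2 ∈ bisSet P z.1 z.2 ∧ e.1 ≠ e.2) ∧ Tri L M e.1 e.2 z.1)).trans
    (card_sigma_swap' P.offDiag (Ss P f) (fun e z =>
    (e.1 ∈ bisSet P z.1 z.2 ∧ e.2 ∈ bisSet P z.1 z.2 ∧ e.1 ≠ e.2) ∧ Tri L M e.1 e.2 z.1)).symm)) ?_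
  calc _ ≤ ∑ z ∈ Ss P f, 3 * m := ?_
    _ = 3 * m * (Ss P f).card := by rw [Finset.sum_const, smul_eq_mul, mul_comm]
  refine Finset.sum_le_sum (fun z hz => ?_)
  simp only [Ss, mem_filter, mem_offDiag] at hz
  refine le_trans (Finset.card_le_card ?_) ((kB P z.1 z.2 hz.1.2.2).trans
    (Nat.mul_le_mul_left 3 (hm z.1 hz.1.1 z.2 hz.1.2.1 hz.1.2.2)))
  intro e he
  simp only [mem_filter, mem_offDiag] at he ⊢
  exact ⟨he.2.1, he.2.2⟩

theorem sum_Xs_le {J : ℕ} (L M : ℝ) (hG : Good L M) (P : Finset V3)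
    (f : Fin J → MvPolynomial (Fin 3) ℝ) (hK : Kite_stmt) (hC : Cross_stmt) (a k : ℝ)
    (ha : (2 * (∑ j, (f j).totalDegree) + 2 : ℝ) ≤ a)
    (hk : ((∑ e ∈ P.offDiag, (KK L M P f e).card : ℕ) : ℝ) ≤ k) :
    ((∑ e ∈ P.offDiag, (Xs L M P f e).card : ℕ) : ℝ) ≤
      a * (P.card : ℝ) ^ 2 + Real.sqrt ((P.card : ℝ) ^ 2 * (a * k)) := by
  set D := ∑ j, (f j).totalDegree with hD
  have ha0 : 0 ≤ a := le_trans (by positivity) ha
  have hoff : ((P.offDiag.card : ℕ) : ℝ) ≤ (P.card : ℝ) ^ 2 := by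
    rw [Finset.offDiag_card]
    have : P.card * P.card - P.card ≤ P.card ^ 2 := by rw [sq]; exact Nat.sub_le _ _
    exact_mod_cast this
  have key : ∀ e ∈ P.offDiag, ((Xs L M P f e).card : ℝ) ≤ a +
      Real.sqrt (a * (KK L M P f e).card) := by
    intro e he
    have hA : ((Xs L M P f e).image (sgnp f)).card ≤ 2 * D + 2 := by
      refine (hC L M e.1 e.2 J f (Xs L M P f e) hG ?_).1 ?_
      · intro r hr
        simp only [Xs, mem_filter] at hr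
        exact hr.2.1
      · intro r hr
        simp only [Xs, mem_filter] at hr
        exact hr.2.2
    have h1 := sq_card_Xs_le L M hG P f e he (2 * D + 2) hA hK
    apply quad_bound (by positivity) (by positivity) (by positivity)
    have h2 : ((Xs L M P f e).card : ℝ) ^ 2 ≤ (2 * D + 2) * ((Xs L M P f e).card +
      (KK L M P f e).card) := by exact_mod_cast h1
    refine h2.trans ?_
    have h3 : (2 * (D : ℝ) + 2) * ((Xs L M P f e).card + (KK L M P f e).card) ≤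
        a * ((Xs L M P f e).card + (KK L M P f e).card) := by
      apply mul_le_mul_of_nonneg_right _ (by positivity)
      exact_mod_cast ha
    refine h3.trans (le_of_eq ?_)
    ring
  have hsum : ((∑ e ∈ P.offDiag, (Xs L M P f e).card : ℕ) : ℝ) ≤
      ∑ e ∈ P.offDiag, (a + Real.sqrt (a * (KK L M P f e).card)) := by
    push_cast
    exact Finset.sum_le_sum key
  refine hsum.trans ?_
  rw [Finset.sum_add_distrib]
  apply add_le_add
  · rw [Finset.sum_const, nsmul_eq_mul, mul_comm]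
    exact mul_le_mul_of_nonneg_left hoff ha0
  · refine (sum_sqrt_le P.offDiag _ (fun e _ => by positivity)).trans ?_
    apply Real.sqrt_le_sqrt
    rw [← Finset.mul_sum]
    have hs0 : (0 : ℝ) ≤ ∑ e ∈ P.offDiag, ((KK L M P f e).card : ℝ) :=
      Finset.sum_nonneg (fun e _ => Nat.cast_nonneg _)
    refine mul_le_mul hoff ?_ (mul_nonneg ha0 hs0) (sq_nonneg _)
    apply mul_le_mul_of_nonneg_left _ ha0
    push_cast at hk
    exact hk

/-- the bound in coordinates -/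
theorem st_Bis (hPart : Part_stmt 3) (hCross : Cross_stmt) (hZero : Zero_stmt)
    (hKite : Kite_stmt) (L M : ℝ) (P : Finset V3) (hG : Good L M) (m : ℕ) (hm1 : 1 ≤ m)
    (hm : ∀ r ∈ P, ∀ s ∈ P, r ≠ s → (bisSet P r s).card ≤ m) :
    (((P ×ˢ P ×ˢ P).filter (fun z => Tri L M z.1 z.2.1 z.2.2)).card : ℝ) ≤
      260 * (P.card : ℝ) ^ 2 * (m : ℝ) ^ (1 / 4 : ℝ) := by
  set n : ℝ := (P.card : ℝ) with hnn
  have hn0 : 0 ≤ n := Nat.cast_nonneg _
  have hmR : (1 : ℝ) ≤ m := by exact_mod_cast hm1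
  set y : ℝ := (m : ℝ) ^ (1 / 4 : ℝ) with hy
  have hy1 : 1 ≤ y := Real.one_le_rpow hmR (by norm_num)
  have hy0 : 0 < y := by linarith
  have hy4 : y ^ 4 = m := by
    rw [hy, ← Real.rpow_natCast, ← Real.rpow_mul (by linarith)]
    norm_num
  obtain ⟨i, hi1, hi2⟩ := exists_nat_pow_near hy1 (by norm_num : (1 : ℝ) < 2)
  obtain ⟨f, hf0, hdeg, hcell⟩ := hPart i P
  set D := ∑ j, (f j).totalDegree with hD
  have hDle : (D : ℝ) ≤ 18 * y := by
    have : (D : ℝ) ≤ ((2 * 3 ^ 2 * 2 ^ i : ℕ) : ℝ) := by exact_mod_cast hdeg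
    refine this.trans ?_
    push_cast
    nlinarith
  -- pairs in the same cell
  have hS : y ^ 3 * ((Ss P f).card : ℝ) ≤ 8 * n ^ 2 := by
    have h1 := card_Ss P f (2 ^ (3 * i)) hcell
    have h2 : (2 : ℝ) ^ (3 * i) * ((Ss P f).card : ℝ) ≤ n * n := by
      rw [hnn]; exact_mod_cast h1
    have h3 : y ^ 3 ≤ 8 * (2 : ℝ) ^ (3 * i) := by
      have : y ^ 3 ≤ ((2 : ℝ) ^ (i + 1)) ^ 3 := pow_le_pow_left₀ hy0.le hi2.le 3
      calc y ^ 3 ≤ ((2 : ℝ) ^ (i + 1)) ^ 3 := this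
        _ = 8 * (2 : ℝ) ^ (3 * i) := by
            rw [mul_comm 3 i, pow_mul, pow_succ]
            ring
    calc y ^ 3 * ((Ss P f).card : ℝ) ≤ 8 * (2 : ℝ) ^ (3 * i) * ((Ss P f).card : ℝ) :=
            mul_le_mul_of_nonneg_right h3 (by positivity)
        _ = 8 * ((2 : ℝ) ^ (3 * i) * ((Ss P f).card : ℝ)) := by ring
        _ ≤ 8 * n ^ 2 := by nlinarith
  -- zero part
  have hF0 : (∏ j, f j) ≠ 0 := Finset.prod_ne_zero_iff.mpr (fun j _ => hf0 j)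
  have hFdeg : (∏ j, f j).totalDegree ≤ D := MvPolynomial.totalDegree_finsetProd _ _
  have hTZ : (((P ×ˢ P ×ˢ P).filter (fun z => Tri L M z.1 z.2.1 z.2.2 ∧
        MvPolynomial.eval z.2.2 (∏ j, f j) = 0)).card : ℝ) ≤ 190 * y * n ^ 2 := by
    have h1 := hZero L M P (∏ j, f j) hG hF0
    have h2 : (((P ×ˢ P ×ˢ P).filter (fun z => Tri L M z.1 z.2.1 z.2.2 ∧
        MvPolynomial.eval z.2.2 (∏ j, f j) = 0)).card : ℝ) ≤
        ((10 * ((∏ j, f j).totalDegree + 1) * P.card ^ 2 : ℕ) : ℝ) := by exact_mod_cast h1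
    refine h2.trans ?_
    push_cast
    have h3 : ((∏ j, f j).totalDegree : ℝ) ≤ 18 * y := le_trans (by exact_mod_cast hFdeg) hDle
    have h5 : 10 * (((∏ j, f j).totalDegree : ℝ) + 1) ≤ 190 * y := by linarith
    exact mul_le_mul_of_nonneg_right h5 (by positivity)
  -- kites
  have hKK : ((∑ e ∈ P.offDiag, (KK L M P f e).card : ℕ) : ℝ) ≤ 24 * y * n ^ 2 := by
    have h1 : ((∑ e ∈ P.offDiag, (KK L M P f e).card : ℕ) : ℝ) ≤
        3 * (m : ℝ) * ((Ss P f).card : ℝ) := by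
      exact_mod_cast sum_KK L M hG P f hKite m hm
    refine h1.trans ?_
    rw [← hy4]
    calc 3 * y ^ 4 * ((Ss P f).card : ℝ) = 3 * y * (y ^ 3 * ((Ss P f).card : ℝ)) := by ring
      _ ≤ 3 * y * (8 * n ^ 2) := mul_le_mul_of_nonneg_left hS (by positivity)
      _ = 24 * y * n ^ 2 := by ring
  have hA38 : (2 * ((∑ j, (f j).totalDegree : ℕ) : ℝ) + 2 : ℝ) ≤ 38 * y := by
    rw [← hD]
    linarith
  have hX := sum_Xs_le L M hG P f hKite hCross (38 * y) _ (by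
    push_cast at hA38 ⊢
    exact hA38) hKK
  have hsq : Real.sqrt (n ^ 2 * (38 * y * (24 * y * n ^ 2))) ≤ 31 * y * n ^ 2 := by
    apply Real.sqrt_le_iff.mpr
    refine ⟨by positivity, ?_⟩
    have e1 : n ^ 2 * (38 * y * (24 * y * n ^ 2)) = 912 * (y * n ^ 2) ^ 2 := by ring
    have e2 : (31 * y * n ^ 2) ^ 2 = 961 * (y * n ^ 2) ^ 2 := by ring
    rw [e1, e2]
    exact mul_le_mul_of_nonneg_right (by norm_num) (sq_nonneg _)
  have hT := total_le L M P f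
  have hT' : (((P ×ˢ P ×ˢ P).filter (fun z => Tri L M z.1 z.2.1 z.2.2)).card : ℝ) ≤
      ((∑ e ∈ P.offDiag, (Xs L M P f e).card : ℕ) : ℝ) +
      (((P ×ˢ P ×ˢ P).filter (fun z => Tri L M z.1 z.2.1 z.2.2 ∧
        MvPolynomial.eval z.2.2 (∏ j, f j) = 0)).card : ℝ) := by exact_mod_cast hT
  have hp : 0 ≤ y * n ^ 2 := by positivity
  calc _ ≤ _ := hT'
    _ ≤ (38 * y * n ^ 2 + 31 * y * n ^ 2) + 190 * y * n ^ 2 :=
        add_le_add (hX.trans (add_le_add le_rfl hsq)) hTZ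
    _ ≤ _ := by nlinarith

end

end Pool.Agent.Helper73.Sim
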