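import Pool.Agent.Results.MP_583446_co.SimilarTriangles
import Pool.Agent.Helper73.Sim.Bisector

open scoped Classical BigOperators
open Finset

namespace Pool.Agent.Helper73.Sim

open Pool.Agent.Helper98.Sim
open Pool.Agent.Results.MP_583446_co.SimilarTriangles (E3)

noncomputable section

abbrev io (x : E3) : V3 := WithLp.ofLp x

theorem io_inj : Function.Injective io := WithLp.ofLp_injective 2

theorem nsq_io (x y : E3) : nsq (io x - io y) = dist x y ^ 2 := by
  rw [EuclideanSpace.dist_eq, Real.sq_sqrt (Finset.sum_nonneg (fun i _ => sq_nonneg _))]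
  simp only [nsq, dotProduct, Pi.sub_apply]
  refine Finset.sum_congr rfl (fun i _ => ?_)
  rw [Real.dist_eq, sq_abs, sq]

theorem count_le (a b c : E3) (hab : a ≠ b) (hac : a ≠ c) (hbc : b ≠ c)
    (hcol : ¬ Collinear ℝ ({a, b, c} : Set E3)) (P : Finset E3) (X : Finset (Finset E3))
    (Pr : V3 → Prop)
    (hX : ∀ T ∈ X, T ⊆ P ∧ ∃ (φ : E3 ≃ᵢ E3) (r : ℝ), 0 < r ∧
      T = {φ (r • a), φ (r • b), φ (r • c)} ∧ Pr (io (φ (r • c)))) :
    ∃ L M : ℝ, Good L M ∧ X.card ≤
      ((P.image io ×ˢ P.image io ×ˢ P.image io).filter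
        (fun z => Tri L M z.1 z.2.1 z.2.2 ∧ Pr z.2.2)).card := by
  have hd0 : 0 < dist a b := dist_pos.mpr hab
  refine ⟨dist c a ^ 2 / dist a b ^ 2, dist c b ^ 2 / dist a b ^ 2, ?_, ?_⟩
  · -- strict Cauchy-Schwarz
    unfold Good
    have hin : (1 + dist c a ^ 2 / dist a b ^ 2 - dist c b ^ 2 / dist a b ^ 2) =
        2 * inner ℝ (c - a) (b - a) / dist a b ^ 2 := by
      have e1 : dist c b ^ 2 = dist c a ^ 2 - 2 * inner ℝ (c - a) (b - a) + dist a b ^ 2 := by
        have : c - b = (c - a) - (b - a) := by abel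
        rw [dist_eq_norm, dist_eq_norm, dist_comm a b, dist_eq_norm, this, norm_sub_sq_real]
      rw [e1]
      field_simp
      ring
    rw [hin]
    have hCS : inner ℝ (c - a) (b - a) ^ 2 < dist c a ^ 2 * dist a b ^ 2 := by
      have h1 : |inner ℝ (c - a) (b - a)| < ‖c - a‖ * ‖b - a‖ := by
        refine lt_of_le_of_ne (abs_real_inner_le_norm _ _) ?_
        intro heq
        apply hcol
        have hca : c - a ≠ 0 := sub_ne_zero.mpr hac.symm
        have hba : b - a ≠ 0 := sub_ne_zero.mpr hab.symm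
        have hne : ‖c - a‖ * ‖b - a‖ ≠ 0 := mul_ne_zero (norm_ne_zero_iff.mpr hca) (norm_ne_zero_iff.mpr hba)
        have h2 : |inner ℝ (c - a) (b - a) / (‖c - a‖ * ‖b - a‖)| = 1 := by
          rw [abs_div, heq, abs_mul, abs_norm, abs_norm, div_self hne]
        obtain ⟨_, r, hr, hr2⟩ := (abs_real_inner_div_norm_mul_norm_eq_one_iff (c - a) (b - a)).mp h2
        rw [collinear_iff_of_mem (p₀ := a) (by simp)]
        refine ⟨c - a, ?_⟩
        intro x hx
        simp only [Set.mem_insert_iff, Set.mem_singleton_iff] at hx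
        rcases hx with rfl | rfl | rfl
        · exact ⟨0, by simp⟩
        · refine ⟨r, ?_⟩
          rw [← hr2]
          simp
        · exact ⟨1, by simp⟩
      rw [← sq_abs (inner ℝ (c - a) (b - a)), dist_eq_norm, dist_comm a b, dist_eq_norm, ← mul_pow]
      exact pow_lt_pow_left₀ h1 (abs_nonneg _) (by norm_num)
    have hd2 : 0 < dist a b ^ 2 := by positivity
    rw [div_pow, div_lt_iff₀ (by positivity)]
    have : 4 * (dist c a ^ 2 / dist a b ^ 2) * (dist a b ^ 2) ^ 2 =
        4 * (dist c a ^ 2 * dist a b ^ 2) := by field_simp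
    rw [this]
    nlinarith
  · -- injection
    have hex : ∀ T ∈ X,
        ∃ z : E3 × E3 × E3, T = {z.1, z.2.1, z.2.2} ∧ dist z.1 z.2.2 ^ 2 =
          dist c a ^ 2 / dist a b ^ 2 * dist z.1 z.2.1 ^ 2 ∧ dist z.2.1 z.2.2 ^ 2 =
          dist c b ^ 2 / dist a b ^ 2 * dist z.1 z.2.1 ^ 2 ∧ z.1 ≠ z.2.1 ∧ Pr (io z.2.2) := by
      intro T hT
      obtain ⟨_, φ, r, hr, himg, hpr⟩ := hX T hT
      refine ⟨(φ (r • a), φ (r • b), φ (r • c)), himg, ?_, ?_, ?_, hpr⟩
      · simp only [φ.dist_eq]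
        rw [dist_smul₀, dist_smul₀, Real.norm_of_nonneg hr.le, dist_comm a c]
        field_simp
      · simp only [φ.dist_eq]
        rw [dist_smul₀, dist_smul₀, Real.norm_of_nonneg hr.le, dist_comm b c]
        field_simp
      · intro h
        exact hab (smul_right_injective E3 hr.ne' (φ.injective h))
    choose! z hz using hex
    apply Finset.card_le_card_of_injOn (fun T => (io (z T).1, io (z T).2.1, io (z T).2.2))
    · intro T hT
      have hT' := hz T hT
      have hTP : T ⊆ P := (hX T (Finset.mem_coe.mp hT)).1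
      obtain ⟨h1, h2, h3, h4, h5⟩ := hT'
      have m1 : (z T).1 ∈ P := hTP ((Finset.ext_iff.mp h1 _).mpr (by simp))
      have m2 : (z T).2.1 ∈ P := hTP ((Finset.ext_iff.mp h1 _).mpr (by simp))
      have m3 : (z T).2.2 ∈ P := hTP ((Finset.ext_iff.mp h1 _).mpr (by simp))
      simp only [coe_filter, mem_product, Set.mem_ofPred_eq]
      refine ⟨⟨mem_image_of_mem _ m1, mem_image_of_mem _ m2, mem_image_of_mem _ m3⟩,
        ⟨?_, ?_, ?_⟩, h5⟩
      · exact fun h => h4 (io_inj h)
      · rw [nsq_io, nsq_io, dist_comm, dist_comm (z T).2.1]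
        exact h2
      · rw [nsq_io, nsq_io, dist_comm, dist_comm (z T).2.1 (z T).1]
        exact h3
    · intro T hT T' hT' h
      simp only [Prod.mk.injEq] at h
      obtain ⟨h1, h2, h3⟩ := h
      rw [(hz T hT).1, (hz T' hT').1, io_inj h1, io_inj h2, io_inj h3]

theorem all_inputs : Part_stmt 3 ∧ Cross_stmt ∧ Zero_stmt ∧ Kite_stmt := by
  have hBU : BU_stmt := Pool.Agent.Helper36.Sim.st_A1c Pool.Agent.Helper36.Sim.st_A1a
    Pool.Agent.Helper98.Sim.st_Sd
  have hPart : ∀ d, Part_stmt d := st_A3 (Pool.Agent.Helper36.Sim.st_A2 hBU)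
  have hS1 : Subst1_stmt := Pool.Agent.Helper55.Sim.st_Subst1
  have hSC : SignCount_stmt := Pool.Agent.Helper55.Sim.st_SignCount
  have hSM : SubstM_stmt := Pool.Agent.Helper55.Sim.st_SubstM
  have hCr : Cross_stmt := Pool.Agent.Helper55.Sim.st_Cross hS1 hSC
  have hH : ∀ d, HypCount_stmt d := Pool.Agent.Helper55.Sim.st_HypCount hS1
  have hZ : Zero_stmt := Pool.Agent.Helper34.Sim.st_D2 hCr hSM (hH 3)
  have hK : Kite_stmt := Pool.Agent.Helper74.Sim.st_E1
  exact ⟨hPart 3, hCr, hZ, hK⟩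

end

end Pool.Agent.Helper73.Sim
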